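import Pool.Agent.Lib.MP_a3e05c_co.EX6.Var
import Pool.Agent.Lib.MP_a3e05c_co.EX.StepV

/-!
# EULER, C6: deletion of two adjacent full vertices with one private neighbour each
-/

open Finset

namespace MP_a3e05c_co.KL

variable {V E : Type} [Fintype V] [DecidableEq V] [Fintype E] [DecidableEq E]

private theorem Step6_one {hd : E → Bool → V} (hs : Simple hd) (hev : ∀ v, Even (deg hd v))
    {A : Finset V} {D : ℕ} {w w2 : V} (hw : w ∈ A) (hw2 : w2 ∈ A) (hadj : Adj hd w w2)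
    (hD2 : deg hd w2 = D) (hk2 : kk hd A w2 = D) {v : ℝ}
    (hv : v * (Om hd ((A.erase w).erase w2)).card ≤ ∑ ω ∈ Om hd ((A.erase w).erase w2),
      ((∑ e ∈ btw hd ((A.erase w).erase w2) w2, sg hd ω w2 e : ℤ) : ℝ) ^ 2) :
    PA hd A ≤ FM (D - 1) 1 v * PA hd ((A.erase w).erase w2) := by
  have hne : w2 ≠ w := Adj.ne hs hadj
  have h1 : PA hd A ≤ PA hd (A.erase w) := PA_mono (erase_subset _ _)
  have h2 := PA_stepV hs.1 (A := A.erase w) (w := w2) (mem_erase.2 ⟨hne, hw2⟩) (hev w2) hv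
  have h3 := kk_erase hs hw w2
  rw [if_pos hadj] at h3
  have h4 : kk hd (A.erase w) w2 = D - 1 := by omega
  have h5 : deg hd w2 - kk hd (A.erase w) w2 = 1 := by omega
  rw [h5, h4] at h2
  exact h1.trans h2

/-- **C6.**  `w` and `w2` are adjacent, full (all their `D` neighbours are alive) and `w2` has
exactly one neighbour which is neither `w` nor a neighbour of `w`. -/
theorem c6_step {hd : E → Bool → V} (hs : Simple hd) (hev : ∀ v, Even (deg hd v))
    {A : Finset V} {D : ℕ} {w w2 : V} (hw : w ∈ A) (hw2 : w2 ∈ A) (hadj : Adj hd w w2)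
    (hD : deg hd w = D) (hD2 : deg hd w2 = D) (hk : kk hd A w = D) (hk2 : kk hd A w2 = D)
    (hj : ((nb hd A w2 \ nb hd A w).erase w).card = 1) :
    PA hd A ≤ FM (D - 1) 1 (1 / 2 + ∑ u ∈ nb hd A w ∩ nb hd A w2,
      (deg hd u : ℝ) / (2 * ((deg hd u : ℝ) - 1))) * PA hd ((A.erase w).erase w2) := by
  classical
  have hne : w2 ≠ w := Adj.ne hs hadj
  have hw1 : ¬ Adj hd w w := fun h => Adj.ne hs h rfl
  have hw22 : ¬ Adj hd w2 w2 := fun h => Adj.ne hs h rfl
  have hwm : w ∈ nb hd A w2 \ nb hd A w := by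
    rw [mem_sdiff, nb, nb, mem_filter, mem_filter]
    exact ⟨⟨hw, hadj.symm⟩, fun h => hw1 h.2⟩
  have hw2m : w2 ∈ nb hd A w \ nb hd A w2 := by
    rw [mem_sdiff, nb, nb, mem_filter, mem_filter]
    exact ⟨⟨hw2, hadj⟩, fun h => hw22 h.2⟩
  have hc1 : (nb hd A w2 \ nb hd A w).card = 2 := by
    have h := card_erase_of_mem hwm
    have h2 := card_pos.2 ⟨w, hwm⟩
    omega
  have hcard : (nb hd A w).card = (nb hd A w2).card := by
    rw [card_nb hs, card_nb hs, hk, hk2]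
  have hc2 : (nb hd A w \ nb hd A w2).card = 2 := by
    have h1 := card_sdiff_add_card_inter (nb hd A w) (nb hd A w2)
    have h2 := card_sdiff_add_card_inter (nb hd A w2) (nb hd A w)
    rw [inter_comm] at h2
    omega
  have hc3 : ((nb hd A w \ nb hd A w2).erase w2).card = 1 := by
    rw [card_erase_of_mem hw2m, hc2]
  obtain ⟨a, ha⟩ := card_eq_one.1 hc3
  obtain ⟨b, hb⟩ := card_eq_one.1 hj
  have ha1 : a ∈ (nb hd A w \ nb hd A w2).erase w2 := by
    rw [ha]
    exact mem_singleton_self a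
  have hb1 : b ∈ (nb hd A w2 \ nb hd A w).erase w := by
    rw [hb]
    exact mem_singleton_self b
  rw [mem_erase, mem_sdiff] at ha1 hb1
  set C := nb hd A w ∩ nb hd A w2 with hC
  have hmw : ∀ u, u ∈ nb hd A w ↔ u ∈ A ∧ Adj hd w u := fun u => by rw [nb, mem_filter]
  have hmw2 : ∀ u, u ∈ nb hd A w2 ↔ u ∈ A ∧ Adj hd w2 u := fun u => by rw [nb, mem_filter]
  have hadj1 : ∀ u ∈ (A.erase w).erase w2, Adj hd w u ↔ u ∈ insert a C := by
    intro u hu
    rw [mem_erase, mem_erase] at hu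
    constructor
    · intro h
      have h1 : u ∈ nb hd A w := (hmw u).2 ⟨hu.2.2, h⟩
      by_cases h2 : u ∈ nb hd A w2
      · exact mem_insert_of_mem (mem_inter.2 ⟨h1, h2⟩)
      · have h3 : u ∈ (nb hd A w \ nb hd A w2).erase w2 :=
          mem_erase.2 ⟨hu.1, mem_sdiff.2 ⟨h1, h2⟩⟩
        rw [ha, mem_singleton] at h3
        rw [h3]
        exact mem_insert_self _ _
    · intro h
      rw [mem_insert] at h
      rcases h with rfl | h
      · exact ((hmw _).1 ha1.2.1).2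
      · exact ((hmw _).1 (mem_inter.1 h).1).2
  have hadj2 : ∀ u ∈ (A.erase w).erase w2, Adj hd w2 u ↔ u ∈ insert b C := by
    intro u hu
    rw [mem_erase, mem_erase] at hu
    constructor
    · intro h
      have h1 : u ∈ nb hd A w2 := (hmw2 u).2 ⟨hu.2.2, h⟩
      by_cases h2 : u ∈ nb hd A w
      · exact mem_insert_of_mem (mem_inter.2 ⟨h2, h1⟩)
      · have h3 : u ∈ (nb hd A w2 \ nb hd A w).erase w :=
          mem_erase.2 ⟨hu.2.1, mem_sdiff.2 ⟨h1, h2⟩⟩
        rw [hb, mem_singleton] at h3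
        rw [h3]
        exact mem_insert_self _ _
    · intro h
      rw [mem_insert] at h
      rcases h with rfl | h
      · exact ((hmw2 _).1 hb1.2.1).2
      · exact ((hmw2 _).1 (mem_inter.1 h).2).2
  have haB : a ∈ (A.erase w).erase w2 :=
    mem_erase.2 ⟨ha1.1, mem_erase.2 ⟨Adj.ne hs ((hmw _).1 ha1.2.1).2, ((hmw _).1 ha1.2.1).1⟩⟩
  have hbB : b ∈ (A.erase w).erase w2 :=
    mem_erase.2 ⟨Adj.ne hs ((hmw2 _).1 hb1.2.1).2, mem_erase.2 ⟨hb1.1, ((hmw2 _).1 hb1.2.1).1⟩⟩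
  have hCB : C ⊆ (A.erase w).erase w2 := by
    intro u hu
    rw [hC, mem_inter, hmw, hmw2] at hu
    exact mem_erase.2 ⟨Adj.ne hs hu.2.2, mem_erase.2 ⟨Adj.ne hs hu.1.2, hu.1.1⟩⟩
  have haC : a ∉ C := fun h => ha1.2.2 (mem_inter.1 h).2
  have hbC : b ∉ C := fun h => hb1.2.2 (mem_inter.1 h).1
  have hab : a ≠ b := fun h => ha1.2.2 (h ▸ hb1.2.1)
  have key := two_var hs hev (B := (A.erase w).erase w2) (w := w) (w2 := w2)
    (fun h => notMem_erase w A (mem_of_mem_erase h)) (notMem_erase w2 _) hne.symm haB hbB hCB haC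
    hbC hab hadj1 hadj2
  set v : ℝ := 1 / 2 + ∑ u ∈ C, (deg hd u : ℝ) / (2 * ((deg hd u : ℝ) - 1)) with hvdef
  by_cases hcase : v * (Om hd ((A.erase w).erase w2)).card ≤
      ∑ ω ∈ Om hd ((A.erase w).erase w2),
        ((∑ e ∈ btw hd ((A.erase w).erase w2) w2, sg hd ω w2 e : ℤ) : ℝ) ^ 2
  · exact Step6_one hs hev hw hw2 hadj hD2 hk2 hcase
  · rw [erase_right_comm]
    refine Step6_one hs hev hw2 hw hadj.symm hD hk ?_
    rw [erase_right_comm]
    rw [not_le] at hcase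
    linarith

end MP_a3e05c_co.KL
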