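import Pool.Agent.Lib.MP_a3e05c_co.IRR.Defs
import Pool.Agent.Lib.MP_a3e05c_co.EX6.Step

/-!
# EULER, case C6: the graph part
-/

open Finset

namespace MP_a3e05c_co.KL

variable {V E : Type} [Fintype V] [DecidableEq V] [Fintype E] [DecidableEq E]

/-- S7 for the degree `D` -/
def S7D (D : ℕ) : Prop :=
  Real.log (FM (D - 1) 1 (1 / 2 + (D : ℝ) * ((D : ℝ) - 2) / (2 * ((D : ℝ) - 1)))) ≤
    2 * AA D + ((D : ℝ) - 2) * (AA D - phi D (D - 2)) + 2 * (AA D - phi D (D - 1))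

private theorem Assembly_gain {hd : E → Bool → V} (hs : Simple hd) {A : Finset V}
    {D : ℕ} {w w₂ : V} (hw : w ∈ A) (hwf : Full hd A w) (hwD : deg hd w = D)
    (hw₂ : w₂ ∈ nb hd A w) (hw₂D : deg hd w₂ = D)
    (hall : ∀ u ∈ nb hd A w, Full hd A u) (hall₂ : ∀ u ∈ nb hd A w₂, Full hd A u)
    {a b : V} (ha : (nb hd A w \ nb hd A w₂).erase w₂ = {a})
    (hb : (nb hd A w₂ \ nb hd A w).erase w = {b}) :
    pot hd A - pot hd ((A.erase w).erase w₂) = 2 * AA D +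
      ∑ u ∈ nb hd A w ∩ nb hd A w₂, (AA (deg hd u) - phi (deg hd u) (deg hd u - 2)) +
      (AA (deg hd a) - phi (deg hd a) (deg hd a - 1)) +
      (AA (deg hd b) - phi (deg hd b) (deg hd b - 1)) := by
  have hw₂A : w₂ ∈ A := (mem_nb.1 hw₂).1
  have hadj : Adj hd w w₂ := (mem_nb.1 hw₂).2
  have hne : w₂ ≠ w := Adj.ne hs hadj
  have hwn : w ∈ nb hd A w₂ := mem_nb.2 ⟨hw, hadj.symm⟩
  have hww : w ∉ nb hd A w := fun h => Adj.ne hs (mem_nb.1 h).2 rfl
  have hww₂ : w₂ ∉ nb hd A w₂ := fun h => Adj.ne hs (mem_nb.1 h).2 rfl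
  have ha1 : a ∈ (nb hd A w \ nb hd A w₂).erase w₂ := by
    rw [ha]
    exact mem_singleton_self a
  have hb1 : b ∈ (nb hd A w₂ \ nb hd A w).erase w := by
    rw [hb]
    exact mem_singleton_self b
  rw [mem_erase, mem_sdiff] at ha1 hb1
  set C := nb hd A w ∩ nb hd A w₂ with hC
  have hkw : kk hd A w = D := by rw [← hwD]; exact hwf
  have hkw₂ : kk hd A w₂ = D := by rw [← hw₂D]; exact hall w₂ hw₂
  have hk1 : kk hd (A.erase w) w₂ = D - 1 := by
    have h3 := kk_erase hs hw w₂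
    rw [if_pos hadj] at h3
    omega
  have e1 := pot_erase hs hw
  have e2 := pot_erase hs (A := A.erase w) (w := w₂) (mem_erase.2 ⟨hne, hw₂A⟩)
  have e3 : gain hd A w = (AA D - phi D (D - 1)) + ((AA (deg hd a) - phi (deg hd a) (deg hd a - 1)) +
      ∑ u ∈ C, (AA (deg hd u) - phi (deg hd u) (deg hd u - 1))) := by
    unfold gain
    have h1 : nb hd A w = insert w₂ (insert a C) := by
      ext u
      rw [mem_insert, mem_insert, hC, mem_inter]
      constructor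
      · intro h
        by_cases h2 : u = w₂
        · exact Or.inl h2
        · by_cases h3 : u ∈ nb hd A w₂
          · exact Or.inr (Or.inr ⟨h, h3⟩)
          · have h4 : u ∈ (nb hd A w \ nb hd A w₂).erase w₂ :=
              mem_erase.2 ⟨h2, mem_sdiff.2 ⟨h, h3⟩⟩
            rw [ha, mem_singleton] at h4
            exact Or.inr (Or.inl h4)
      · rintro (rfl | rfl | h)
        · exact hw₂
        · exact ha1.2.1
        · exact h.1
    have h2 : w₂ ∉ insert a C := by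
      rw [mem_insert, hC, mem_inter]
      rintro (h | h)
      · exact ha1.1 h.symm
      · exact hww₂ h.2
    have h3 : a ∉ C := fun h => ha1.2.2 (mem_inter.1 h).2
    have h4 : ∀ u ∈ nb hd A w, phi (deg hd u) (kk hd A u) - phi (deg hd u) (kk hd A u - 1) =
        AA (deg hd u) - phi (deg hd u) (deg hd u - 1) := by
      intro u hu
      have h5 : kk hd A u = deg hd u := hall u hu
      rw [h5, phi_full]
    rw [sum_congr rfl h4, h1, Finset.sum_insert h2, Finset.sum_insert h3, hw₂D]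
  have e4 : gain hd (A.erase w) w₂ = (AA (deg hd b) - phi (deg hd b) (deg hd b - 1)) +
      ∑ u ∈ C, (phi (deg hd u) (deg hd u - 1) - phi (deg hd u) (deg hd u - 2)) := by
    unfold gain
    have h1 : nb hd (A.erase w) w₂ = insert b C := by
      ext u
      rw [mem_insert, hC, mem_inter, mem_nb, mem_erase]
      constructor
      · rintro ⟨⟨h2, h3⟩, h4⟩
        have h5 : u ∈ nb hd A w₂ := mem_nb.2 ⟨h3, h4⟩
        by_cases h6 : u ∈ nb hd A w
        · exact Or.inr ⟨h6, h5⟩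
        · have h7 : u ∈ (nb hd A w₂ \ nb hd A w).erase w :=
            mem_erase.2 ⟨h2, mem_sdiff.2 ⟨h5, h6⟩⟩
          rw [hb, mem_singleton] at h7
          exact Or.inl h7
      · rintro (rfl | h)
        · exact ⟨⟨hb1.1, (mem_nb.1 hb1.2.1).1⟩, (mem_nb.1 hb1.2.1).2⟩
        · refine ⟨⟨fun h2 => hww (h2 ▸ h.1), (mem_nb.1 h.2).1⟩, (mem_nb.1 h.2).2⟩
    have h3 : b ∉ C := fun h => hb1.2.2 (mem_inter.1 h).1
    rw [h1, Finset.sum_insert h3]
    congr 1
    · have h5 : kk hd A b = deg hd b := hall₂ b hb1.2.1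
      have h6 := kk_erase hs hw b
      rw [if_neg (fun h => hb1.2.2 (mem_nb.2 ⟨(mem_nb.1 hb1.2.1).1, h⟩)), add_zero] at h6
      rw [← h6, h5, phi_full]
    · refine sum_congr rfl fun u hu => ?_
      rw [hC, mem_inter] at hu
      have h5 : kk hd A u = deg hd u := hall u hu.1
      have h6 := kk_erase hs hw u
      rw [if_pos (mem_nb.1 hu.1).2] at h6
      have h7 : kk hd (A.erase w) u = deg hd u - 1 := by omega
      rw [h7, Nat.sub_sub]
  have e5 : ∑ u ∈ C, (AA (deg hd u) - phi (deg hd u) (deg hd u - 2)) =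
      ∑ u ∈ C, (AA (deg hd u) - phi (deg hd u) (deg hd u - 1)) +
      ∑ u ∈ C, (phi (deg hd u) (deg hd u - 1) - phi (deg hd u) (deg hd u - 2)) := by
    rw [← sum_add_distrib]
    exact sum_congr rfl fun u _ => by ring
  rw [hkw, hwD, phi_full] at e1
  rw [hk1, hw₂D] at e2
  linarith

/-- **C6** from the scalar facts. -/
theorem red_C6_of
    (hA : ∀ a b : ℕ, Even a → Even b → 2 ≤ a → a ≤ b →
      AA b - phi b (b - 1) ≤ AA a - phi a (a - 1))
    (hG : ∀ a b : ℕ, Even a → Even b → 2 ≤ a → a ≤ b →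
      AA b - phi b (b - 2) ≤ AA a - phi a (a - 2))
    (hS : ∀ D : ℕ, Even D → 2 ≤ D → S7D D)
    {hd : E → Bool → V} (hs : Simple hd) (hev : ∀ v, Even (deg hd v)) {A : Finset V}
    {D : ℕ} (hT : Top hd A D) {w w₂ : V} (hw : w ∈ A) (hwf : Full hd A w) (hwD : deg hd w = D)
    (hw₂ : w₂ ∈ nb hd A w) (hw₂D : deg hd w₂ = D)
    (hall : ∀ u ∈ nb hd A w, Full hd A u) (hall₂ : ∀ u ∈ nb hd A w₂, Full hd A u)
    (hj : (nb hd A w₂ \ NB hd A w).card = 1) : Red hd A := by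
  have hw₂A : w₂ ∈ A := (mem_nb.1 hw₂).1
  have hadj : Adj hd w w₂ := (mem_nb.1 hw₂).2
  have hne : w₂ ≠ w := Adj.ne hs hadj
  have hkw : kk hd A w = D := by rw [← hwD]; exact hwf
  have hkw₂ : kk hd A w₂ = D := by rw [← hw₂D]; exact hall w₂ hw₂
  have hj' : ((nb hd A w₂ \ nb hd A w).erase w).card = 1 := by
    rw [← hj]
    congr 1
    ext u
    rw [mem_erase, mem_sdiff, mem_sdiff, NB, mem_insert]
    tauto
  have hwn : w ∈ nb hd A w₂ := mem_nb.2 ⟨hw, hadj.symm⟩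
  have hww : w ∉ nb hd A w := fun h => Adj.ne hs (mem_nb.1 h).2 rfl
  have hww₂ : w₂ ∉ nb hd A w₂ := fun h => Adj.ne hs (mem_nb.1 h).2 rfl
  have hwm : w ∈ nb hd A w₂ \ nb hd A w := mem_sdiff.2 ⟨hwn, hww⟩
  have hw2m : w₂ ∈ nb hd A w \ nb hd A w₂ := mem_sdiff.2 ⟨hw₂, hww₂⟩
  have hc1 : (nb hd A w₂ \ nb hd A w).card = 2 := by
    have h := card_erase_of_mem hwm
    have h2 := card_pos.2 ⟨w, hwm⟩
    omega
  have hcw : (nb hd A w).card = D := by rw [card_nb hs, hkw]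
  have hcw₂ : (nb hd A w₂).card = D := by rw [card_nb hs, hkw₂]
  have hCcard : (nb hd A w ∩ nb hd A w₂).card + 2 = D := by
    have h2 := card_sdiff_add_card_inter (nb hd A w₂) (nb hd A w)
    rw [inter_comm] at h2
    omega
  have hc2 : (nb hd A w \ nb hd A w₂).card = 2 := by
    have h1 := card_sdiff_add_card_inter (nb hd A w) (nb hd A w₂)
    omega
  have hc3 : ((nb hd A w \ nb hd A w₂).erase w₂).card = 1 := by
    rw [card_erase_of_mem hw2m, hc2]
  obtain ⟨a, ha⟩ := card_eq_one.1 hc3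
  obtain ⟨b, hb⟩ := card_eq_one.1 hj'
  have hDe : Even D := hwD ▸ hev w
  have hD2 : 2 ≤ D := by omega
  have hdeg : ∀ x ∈ A, ∀ u ∈ nb hd A x, Full hd A u → 2 ≤ deg hd u ∧ deg hd u ≤ D := by
    intro x hx u hu hf
    have h1 : kk hd A u = deg hd u := hf
    have h2 : x ∈ nb hd A u := mem_nb.2 ⟨hx, (mem_nb.1 hu).2.symm⟩
    have h3 : 0 < (nb hd A u).card := card_pos.2 ⟨x, h2⟩
    rw [card_nb hs, h1] at h3
    obtain ⟨m, hm⟩ := hev u
    have h4 := hT.le u (mem_nb.1 hu).1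
    rw [h1] at h4
    exact ⟨by omega, h4⟩
  have ha1 : a ∈ (nb hd A w \ nb hd A w₂).erase w₂ := by
    rw [ha]
    exact mem_singleton_self a
  have hb1 : b ∈ (nb hd A w₂ \ nb hd A w).erase w := by
    rw [hb]
    exact mem_singleton_self b
  rw [mem_erase, mem_sdiff] at ha1 hb1
  have hda := hdeg w hw a ha1.2.1 (hall a ha1.2.1)
  have hdb := hdeg w₂ hw₂A b hb1.2.1 (hall₂ b hb1.2.1)
  have key := c6_step hs hev hw hw₂A hadj hwD hw₂D hkw hkw₂ hj'
  have hpot := Assembly_gain hs hw hwf hwD hw₂ hw₂D hall hall₂ ha hb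
  have hga := hA (deg hd a) D (hev a) hDe hda.1 hda.2
  have hgb := hA (deg hd b) D (hev b) hDe hdb.1 hdb.2
  have hDr : (2 : ℝ) ≤ D := by exact_mod_cast hD2
  have hCr : ((nb hd A w ∩ nb hd A w₂).card : ℝ) = (D : ℝ) - 2 := by
    have h1 : ((nb hd A w ∩ nb hd A w₂).card : ℝ) + 2 = D := by exact_mod_cast hCcard
    linarith
  have hCd : ∀ u ∈ nb hd A w ∩ nb hd A w₂, 2 ≤ deg hd u ∧ deg hd u ≤ D := by
    intro u hu
    rw [mem_inter] at hu
    exact hdeg w hw u hu.1 (hall u hu.1)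
  have hgC : ((D : ℝ) - 2) * (AA D - phi D (D - 2)) ≤
      ∑ u ∈ nb hd A w ∩ nb hd A w₂, (AA (deg hd u) - phi (deg hd u) (deg hd u - 2)) := by
    rw [← hCr, ← nsmul_eq_mul, ← sum_const]
    exact sum_le_sum fun u hu => hG (deg hd u) D (hev u) hDe (hCd u hu).1 (hCd u hu).2
  set v' : ℝ := 1 / 2 + ∑ u ∈ nb hd A w ∩ nb hd A w₂,
      (deg hd u : ℝ) / (2 * ((deg hd u : ℝ) - 1)) with hv'
  have hv1 : 1 / 2 + (D : ℝ) * ((D : ℝ) - 2) / (2 * ((D : ℝ) - 1)) ≤ v' := by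
    have h1 : (D : ℝ) * ((D : ℝ) - 2) / (2 * ((D : ℝ) - 1)) =
        ∑ u ∈ nb hd A w ∩ nb hd A w₂, (D : ℝ) / (2 * ((D : ℝ) - 1)) := by
      rw [sum_const, nsmul_eq_mul, hCr]
      ring
    rw [hv', h1]
    refine add_le_add le_rfl (sum_le_sum fun u hu => ?_)
    have h2 : (2 : ℝ) ≤ deg hd u := by exact_mod_cast (hCd u hu).1
    have h3 : (deg hd u : ℝ) ≤ D := by exact_mod_cast (hCd u hu).2
    rw [div_le_div_iff₀ (by linarith) (by linarith)]
    nlinarith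
  have hv2 : v' ≤ ((D - 1 : ℕ) : ℝ) := by
    rw [Nat.cast_sub (by omega)]
    push_cast
    have h1 : ∑ u ∈ nb hd A w ∩ nb hd A w₂, (deg hd u : ℝ) / (2 * ((deg hd u : ℝ) - 1)) ≤
        ∑ u ∈ nb hd A w ∩ nb hd A w₂, (1 : ℝ) := by
      refine sum_le_sum fun u hu => ?_
      have h2 : (2 : ℝ) ≤ deg hd u := by exact_mod_cast (hCd u hu).1
      rw [div_le_one (by linarith)]
      linarith
    rw [sum_const, nsmul_eq_mul, hCr, mul_one] at h1
    linarith
  have hmod : (((D - 1) % 2 : ℕ) : ℝ) ≤ ((D - 1 : ℕ) : ℝ) := by exact_mod_cast Nat.mod_le _ _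
  have hFM : FM (D - 1) 1 v' ≤
      FM (D - 1) 1 (1 / 2 + (D : ℝ) * ((D : ℝ) - 2) / (2 * ((D : ℝ) - 1))) := by
    unfold FM
    exact FF_antitone (max_le_max hv1 le_rfl) (max_le hv2 hmod)
  have hS7 := hS D hDe hD2
  unfold S7D at hS7
  set F := FM (D - 1) 1 (1 / 2 + (D : ℝ) * ((D : ℝ) - 2) / (2 * ((D : ℝ) - 1))) with hF
  have hexp : F ≤ Real.exp (pot hd A - pot hd ((A.erase w).erase w₂)) := by
    have h1 : Real.log F ≤ pot hd A - pot hd ((A.erase w).erase w₂) := by linarith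
    rcases le_or_gt F 0 with h2 | h2
    · exact h2.trans (Real.exp_pos _).le
    · rw [← Real.exp_log h2]
      exact Real.exp_le_exp.2 h1
  refine ⟨(A.erase w).erase w₂, ?_, ?_⟩
  · refine Finset.ssubset_of_subset_of_ssubset (erase_subset _ _) (erase_ssubset hw)
  · exact key.trans (mul_le_mul_of_nonneg_right (hFM.trans hexp) (PA_nonneg hd _))

end MP_a3e05c_co.KL
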