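import Pool.Agent.Lib.MP_a3e05c_co.KL.VarLow
import Pool.Agent.Lib.MP_a3e05c_co.KL.Step
import Pool.Agent.Lib.MP_a3e05c_co.FLIP.Leaves

/-!
# EULER, C6: the second moments at two adjacent vertices which are deleted
-/

open Finset

namespace MP_a3e05c_co.KL

variable {V E : Type} [Fintype V] [DecidableEq V] [Fintype E] [DecidableEq E]

private lemma Var6_abstract {Ω U : Type*} [DecidableEq U] (O : Finset Ω) (C : Finset U)
    (x y : U → Ω → ℝ) (p q : Ω → ℝ) (r : U → ℝ)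
    (hx1 : ∀ u ∈ C, ∀ ω ∈ O, x u ω * x u ω = 1) (hy1 : ∀ u ∈ C, ∀ ω ∈ O, y u ω * y u ω = 1)
    (hp1 : ∀ ω ∈ O, p ω * p ω = 1) (hq1 : ∀ ω ∈ O, q ω * q ω = 1)
    (hxy : ∀ u ∈ C, ∑ ω ∈ O, x u ω * y u ω ≤ - r u * O.card)
    (hex : ∀ u ∈ C, ∀ v ∈ C, u ≠ v → ∑ ω ∈ O, x u ω * x v ω = ∑ ω ∈ O, y u ω * x v ω)
    (hex' : ∀ u ∈ C, ∀ v ∈ C, u ≠ v → ∑ ω ∈ O, x u ω * y v ω = ∑ ω ∈ O, y u ω * y v ω)
    (hp : ∀ u ∈ C, ∑ ω ∈ O, x u ω * p ω = ∑ ω ∈ O, y u ω * p ω)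
    (hq : ∀ u ∈ C, ∑ ω ∈ O, x u ω * q ω = ∑ ω ∈ O, y u ω * q ω)
    (hpq : ∑ ω ∈ O, p ω * q ω ≤ 0) :
    (∑ u ∈ C, (1 + r u) + 1) * O.card ≤
      ∑ ω ∈ O, (∑ u ∈ C, x u ω + p ω) ^ 2 + ∑ ω ∈ O, (∑ u ∈ C, y u ω + q ω) ^ 2 := by
  have h1 : ∑ ω ∈ O, (1 / 2 * (∑ u ∈ C, (x u ω - y u ω)) ^ 2 +
      (∑ u ∈ C, (x u ω - y u ω)) * (p ω - q ω) + 1 / 2 * (p ω - q ω) ^ 2) ≤
      ∑ ω ∈ O, (∑ u ∈ C, x u ω + p ω) ^ 2 + ∑ ω ∈ O, (∑ u ∈ C, y u ω + q ω) ^ 2 := by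
    rw [← sum_add_distrib]
    refine sum_le_sum fun ω _ => ?_
    rw [sum_sub_distrib]
    nlinarith [sq_nonneg (∑ u ∈ C, x u ω + ∑ u ∈ C, y u ω + p ω + q ω)]
  refine le_trans ?_ h1
  have h0 : ∑ ω ∈ O, (1 / 2 * (∑ u ∈ C, (x u ω - y u ω)) ^ 2 +
      (∑ u ∈ C, (x u ω - y u ω)) * (p ω - q ω) + 1 / 2 * (p ω - q ω) ^ 2) =
      ∑ ω ∈ O, 1 / 2 * (∑ u ∈ C, (x u ω - y u ω)) ^ 2 +
      ∑ ω ∈ O, (∑ u ∈ C, (x u ω - y u ω)) * (p ω - q ω) +
      ∑ ω ∈ O, 1 / 2 * (p ω - q ω) ^ 2 := by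
    rw [sum_add_distrib, sum_add_distrib]
  rw [h0]
  have h2 : ∑ ω ∈ O, (∑ u ∈ C, (x u ω - y u ω)) * (p ω - q ω) = 0 := by
    have h3 : ∀ ω ∈ O, (∑ u ∈ C, (x u ω - y u ω)) * (p ω - q ω) =
        ∑ u ∈ C, ((x u ω * p ω - y u ω * p ω) - (x u ω * q ω - y u ω * q ω)) := by
      intro ω _
      rw [sum_mul]
      exact sum_congr rfl fun u _ => by ring
    rw [sum_congr rfl h3, sum_comm]
    refine sum_eq_zero fun u hu => ?_
    rw [sum_sub_distrib, sum_sub_distrib, sum_sub_distrib, hp u hu, hq u hu]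
    ring
  have h4 : (O.card : ℝ) ≤ ∑ ω ∈ O, 1 / 2 * (p ω - q ω) ^ 2 := by
    have h5 : ∀ ω ∈ O, 1 / 2 * (p ω - q ω) ^ 2 = 1 - p ω * q ω := by
      intro ω hω
      have h6 := hp1 ω hω
      have h7 := hq1 ω hω
      linear_combination 1 / 2 * h6 + 1 / 2 * h7
    rw [sum_congr rfl h5, sum_sub_distrib, sum_const, nsmul_eq_mul, mul_one]
    linarith
  have h8 : (∑ u ∈ C, (1 + r u)) * O.card ≤
      ∑ ω ∈ O, 1 / 2 * (∑ u ∈ C, (x u ω - y u ω)) ^ 2 := by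
    have h9 : ∑ ω ∈ O, 1 / 2 * (∑ u ∈ C, (x u ω - y u ω)) ^ 2 =
        ∑ u ∈ C, ∑ v ∈ C, ∑ ω ∈ O, 1 / 2 * ((x u ω - y u ω) * (x v ω - y v ω)) := by
      have h10 : ∀ ω ∈ O, 1 / 2 * (∑ u ∈ C, (x u ω - y u ω)) ^ 2 =
          ∑ u ∈ C, ∑ v ∈ C, 1 / 2 * ((x u ω - y u ω) * (x v ω - y v ω)) := by
        intro ω _
        rw [sq, sum_mul_sum, mul_sum]
        exact sum_congr rfl fun u _ => mul_sum _ _ _
      rw [sum_congr rfl h10, sum_comm]
      exact sum_congr rfl fun u _ => sum_comm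
    rw [h9, sum_mul]
    refine sum_le_sum fun u hu => ?_
    rw [sum_eq_single u]
    · have h11 : ∀ ω ∈ O, 1 / 2 * ((x u ω - y u ω) * (x u ω - y u ω)) = 1 - x u ω * y u ω := by
        intro ω hω
        have h12 := hx1 u hu ω hω
        have h13 := hy1 u hu ω hω
        linear_combination 1 / 2 * h12 + 1 / 2 * h13
      rw [sum_congr rfl h11, sum_sub_distrib, sum_const, nsmul_eq_mul, mul_one]
      have h14 := hxy u hu
      linarith
    · intro v hv hvu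
      have h15 : ∀ ω ∈ O, 1 / 2 * ((x u ω - y u ω) * (x v ω - y v ω)) =
          1 / 2 * ((x u ω * x v ω - y u ω * x v ω) - (x u ω * y v ω - y u ω * y v ω)) := by
        intro ω _
        ring
      rw [sum_congr rfl h15, ← mul_sum, sum_sub_distrib, sum_sub_distrib, sum_sub_distrib,
        hex u hu v hv (Ne.symm hvu), hex' u hu v hv (Ne.symm hvu)]
      ring
    · intro h
      exact absurd hu h
  rw [h2, add_mul, one_mul]
  linarith

omit [Fintype V] [Fintype E] [DecidableEq E] in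
private lemma Var6_sq {hd : E → Bool → V} {u : V} {e : E} {b : Bool} (h : hd e b = u)
    (ω : E → Bool) : (sg hd ω u e : ℝ) * sg hd ω u e = 1 := by
  unfold sg
  by_cases hb : ω e = b
  · rw [hb, if_pos h]
    norm_num
  · have hb' : (!ω e) = b := by
      cases hω : ω e <;> cases b <;> simp_all
    by_cases h1 : hd e (ω e) = u
    · rw [if_pos h1]
      norm_num
    · rw [if_neg h1, hb', if_pos h]
      norm_num

omit [Fintype V] [Fintype E] [DecidableEq E] in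
private lemma Var6_neg {hd : E → Bool → V} {u w : V} (huw : u ≠ w) {e : E} {b : Bool}
    (h : hd e b = w) (h' : hd e (!b) = u) (ω : E → Bool) : sg hd ω w e = - sg hd ω u e := by
  unfold sg
  by_cases hb : ω e = b
  · rw [hb, if_pos h, h', if_neg, if_pos rfl]
    · norm_num
    · rw [h]
      exact Ne.symm huw
  · have hb' : ω e = !b := by
      cases hω : ω e <;> cases b <;> simp_all
    rw [hb', Bool.not_not, h', h, if_neg huw, if_pos rfl, if_pos rfl]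

omit [Fintype V] [DecidableEq V] [Fintype E] [DecidableEq E] in
private lemma Var6_sym {hd : E → Bool → V} {e : E} {b : Bool} {u w : V} (h1 : hd e b = u)
    (h2 : hd e (!b) = w) : s(hd e true, hd e false) = s(u, w) := by
  cases b
  · rw [← h1, ← h2]
    exact Sym2.eq_swap
  · rw [← h1, ← h2]
    rfl

omit [Fintype V] [DecidableEq E] in
/-- the edges between `w` and `B`, indexed by the neighbours -/
private lemma Var6_edges {hd : E → Bool → V} (hs : Simple hd) {B : Finset V} {w : V} (hw : w ∉ B)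
    {T : Finset V} (hT : T ⊆ B) (hadj : ∀ u ∈ B, Adj hd w u ↔ u ∈ T) (e₀ : E) :
    ∃ g : V → E, (∀ u ∈ T, ∃ b, hd (g u) b = u ∧ hd (g u) (!b) = w) ∧
      ∀ ω, ((∑ e ∈ btw hd B w, sg hd ω w e : ℤ) : ℝ) = - ∑ u ∈ T, (sg hd ω u (g u) : ℝ) := by
  classical
  have hex : ∀ u, ∃ e : E, u ∈ T → ∃ b, hd e b = u ∧ hd e (!b) = w := by
    intro u
    by_cases hu : u ∈ T
    · obtain ⟨e, b, h1, h2⟩ := (hadj u (hT hu)).2 hu
      exact ⟨e, fun _ => ⟨!b, h2, by rw [Bool.not_not]; exact h1⟩⟩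
    · exact ⟨e₀, fun h => absurd h hu⟩
  choose g hg using hex
  refine ⟨g, hg, fun ω => ?_⟩
  push_cast
  rw [← sum_neg_distrib]
  symm
  refine sum_bij (fun u _ => g u) ?_ ?_ ?_ ?_
  · intro u hu
    obtain ⟨b, h1, h2⟩ := hg u hu
    rw [btw, mem_filter]
    exact ⟨mem_univ _, !b, h2, by rw [Bool.not_not, h1]; exact hT hu⟩
  · intro u hu v hv h
    obtain ⟨b, h1, h2⟩ := hg u hu
    obtain ⟨c, h3, h4⟩ := hg v hv
    have h5 : g u = g v := h
    rw [← h5] at h3 h4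
    by_cases hbc : b = c
    · rw [← hbc] at h3
      exact h1.symm.trans h3
    · have h6 : c = !b := by
        cases b <;> cases c <;> simp_all
      rw [h6] at h3
      exact absurd (hT hv) (by rw [← h3, h2]; exact hw)
  · intro e he
    rw [btw, mem_filter] at he
    obtain ⟨-, b, h1, h2⟩ := he
    have h3 : hd e (!b) ∈ T := (hadj _ h2).1 ⟨e, b, h1, rfl⟩
    refine ⟨hd e (!b), h3, ?_⟩
    obtain ⟨c, h4, h5⟩ := hg _ h3
    apply hs.2
    show s(hd (g (hd e (!b))) true, hd (g (hd e (!b))) false) = s(hd e true, hd e false)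
    rw [Var6_sym h4 h5, Var6_sym h1 rfl]
    exact Sym2.eq_swap
  · intro u hu
    obtain ⟨b, h1, h2⟩ := hg u hu
    have h3 : u ≠ w := fun h => hw (h ▸ hT hu)
    rw [Var6_neg h3 (b := !b) h2 (by rw [Bool.not_not]; exact h1) ω]
    push_cast
    ring

/-- **The second moments at two vertices.**  `w` and `w2` are outside of `B`, their neighbours in
`B` are `C ∪ {a}` and `C ∪ {b}`. -/
theorem two_var {hd : E → Bool → V} (hs : Simple hd) (hev : ∀ v, Even (deg hd v)) {B : Finset V}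
    {w w2 : V} (hw : w ∉ B) (hw2 : w2 ∉ B) (hww : w ≠ w2) {a b : V} {C : Finset V} (ha : a ∈ B)
    (hb : b ∈ B) (hC : C ⊆ B) (haC : a ∉ C) (hbC : b ∉ C) (hab : a ≠ b)
    (hadj : ∀ u ∈ B, Adj hd w u ↔ u ∈ insert a C) (hadj2 : ∀ u ∈ B, Adj hd w2 u ↔ u ∈ insert b C) :
    2 * (1 / 2 + ∑ u ∈ C, (deg hd u : ℝ) / (2 * ((deg hd u : ℝ) - 1))) * (Om hd B).card ≤
      ∑ ω ∈ Om hd B, ((∑ e ∈ btw hd B w, sg hd ω w e : ℤ) : ℝ) ^ 2 +
        ∑ ω ∈ Om hd B, ((∑ e ∈ btw hd B w2, sg hd ω w2 e : ℤ) : ℝ) ^ 2 := by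
  classical
  obtain ⟨e₀, -⟩ := (hadj a ha).2 (mem_insert_self _ _)
  obtain ⟨g, hg, hsum⟩ := Var6_edges hs hw (insert_subset ha hC) hadj e₀
  obtain ⟨g2, hg2, hsum2⟩ := Var6_edges hs hw2 (insert_subset hb hC) hadj2 e₀
  have hfr : ∀ u ∈ insert a C, g u ∈ frees hd B u := by
    intro u hu
    obtain ⟨c, h1, h2⟩ := hg u hu
    rw [frees, mem_filter]
    exact ⟨mem_univ _, c, h1, by rw [h2]; exact hw⟩
  have hfr2 : ∀ u ∈ insert b C, g2 u ∈ frees hd B u := by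
    intro u hu
    obtain ⟨c, h1, h2⟩ := hg2 u hu
    rw [frees, mem_filter]
    exact ⟨mem_univ _, c, h1, by rw [h2]; exact hw2⟩
  have hne : ∀ u ∈ C, g u ≠ g2 u := by
    intro u hu h
    obtain ⟨c, h1, h2⟩ := hg u (mem_insert_of_mem hu)
    obtain ⟨c', h3, h4⟩ := hg2 u (mem_insert_of_mem hu)
    rw [← h] at h3 h4
    by_cases hcc : c = c'
    · rw [← hcc, h2] at h4
      exact hww h4
    · have h5 : c' = !c := by
        cases c <;> cases c' <;> simp_all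
      rw [h5, h2] at h3
      exact hw (h3 ▸ hC hu)
  have haI : a ∈ insert a C := mem_insert_self _ _
  have hbI : b ∈ insert b C := mem_insert_self _ _
  have hneab : g a ≠ g2 b := by
    intro h
    obtain ⟨c, h1, h2⟩ := hg a haI
    obtain ⟨c', h3, h4⟩ := hg2 b hbI
    rw [← h] at h3 h4
    by_cases hcc : c = c'
    · rw [← hcc, h2] at h4
      exact hww h4
    · have h5 : c' = !c := by
        cases c <;> cases c' <;> simp_all
      rw [h5, h2] at h3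
      exact hw (h3 ▸ hb)
  have key := Var6_abstract (Om hd B) C (fun u ω => (sg hd ω u (g u) : ℝ))
    (fun u ω => (sg hd ω u (g2 u) : ℝ)) (fun ω => (sg hd ω a (g a) : ℝ))
    (fun ω => (sg hd ω b (g2 b) : ℝ)) (fun u => 1 / ((deg hd u : ℝ) - 1))
    ?_ ?_ ?_ ?_ ?_ ?_ ?_ ?_ ?_ ?_
  · have h1 : ∀ ω, ((∑ e ∈ btw hd B w, sg hd ω w e : ℤ) : ℝ) ^ 2 =
        (∑ u ∈ C, (sg hd ω u (g u) : ℝ) + (sg hd ω a (g a) : ℝ)) ^ 2 := by
      intro ω
      rw [hsum ω, Finset.sum_insert haC]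
      ring
    have h2 : ∀ ω, ((∑ e ∈ btw hd B w2, sg hd ω w2 e : ℤ) : ℝ) ^ 2 =
        (∑ u ∈ C, (sg hd ω u (g2 u) : ℝ) + (sg hd ω b (g2 b) : ℝ)) ^ 2 := by
      intro ω
      rw [hsum2 ω, Finset.sum_insert hbC]
      ring
    simp_rw [h1, h2]
    refine le_trans (le_of_eq ?_) key
    congr 1
    rw [mul_add, mul_sum, add_comm]
    congr 1
    · refine sum_congr rfl fun u hu => ?_
      have hd2 : (2 : ℝ) ≤ (deg hd u : ℝ) := by
        have h3 : 0 < deg hd u := by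
          obtain ⟨c, h4, -⟩ := hg u (mem_insert_of_mem hu)
          exact card_pos.2 ⟨g u, mem_filter.2 ⟨mem_univ _, c, h4⟩⟩
        obtain ⟨m, hm⟩ := hev u
        have h4 : 2 ≤ deg hd u := by omega
        exact_mod_cast h4
      have hd1 : (deg hd u : ℝ) - 1 ≠ 0 := by linarith
      field_simp
      ring
    · norm_num
  · intro u hu ω _
    obtain ⟨c, h1, -⟩ := hg u (mem_insert_of_mem hu)
    exact Var6_sq h1 ω
  · intro u hu ω _
    obtain ⟨c, h1, -⟩ := hg2 u (mem_insert_of_mem hu)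
    exact Var6_sq h1 ω
  · intro ω _
    obtain ⟨c, h1, -⟩ := hg a haI
    exact Var6_sq h1 ω
  · intro ω _
    obtain ⟨c, h1, -⟩ := hg2 b hbI
    exact Var6_sq h1 ω
  · intro u hu
    have h := two_point hs.1 (hC hu) (hev u) (hfr u (mem_insert_of_mem hu))
      (hfr2 u (mem_insert_of_mem hu)) (hne u hu)
    push_cast at h
    exact h
  · intro u hu v hv huv
    exact_mod_cast sum_exch hs.1 (hC hu) (hC hv) huv (hfr u (mem_insert_of_mem hu))
      (hfr2 u (mem_insert_of_mem hu)) (hfr v (mem_insert_of_mem hv))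
  · intro u hu v hv huv
    exact_mod_cast sum_exch hs.1 (hC hu) (hC hv) huv (hfr u (mem_insert_of_mem hu))
      (hfr2 u (mem_insert_of_mem hu)) (hfr2 v (mem_insert_of_mem hv))
  · intro u hu
    have hua : u ≠ a := fun h => haC (h ▸ hu)
    exact_mod_cast sum_exch hs.1 (hC hu) ha hua (hfr u (mem_insert_of_mem hu))
      (hfr2 u (mem_insert_of_mem hu)) (hfr a haI)
  · intro u hu
    have hub : u ≠ b := fun h => hbC (h ▸ hu)
    exact_mod_cast sum_exch hs.1 (hC hu) hb hub (hfr u (mem_insert_of_mem hu))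
      (hfr2 u (mem_insert_of_mem hu)) (hfr2 b hbI)
  · exact_mod_cast cov_leaves (fun e h _ => hs.1 e h) (fun v _ => hev v) ha hb (hfr a haI)
      (hfr2 b hbI) hneab

end MP_a3e05c_co.KL
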